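import Pool.Agent.Helper99.PG.Goals

/-!
PROJECT C2 (MP_2b0227_gt), target (a), packet PG-PP: positivity of the port determinant.
-/

namespace Pool.Agent.Helper37.PG

open Pool.Agent.Helper36.SC Pool.Agent.Helper37.Arb Pool.Agent.Helper52.C2 Pool.Agent.Helper99.PG
open scoped Classical

section graph

variable {V : Type} (up dn : V → Option V)

/-- a path to the exit of length at most `n` -/
def PP : ℕ → V → Prop
  | 0, _ => False
  | (n + 1), v => up v = none ∨ dn v = none ∨ ∃ w, (up v = some w ∨ dn v = some w) ∧ PP n w

/-- successor of a port -/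
def tau (i : Port V) (c : Bool) : Option (Port V) :=
  if c then (up i.1).map (fun w => (w, true)) else (dn i.1).map (fun w => (w, false))

theorem exists_choice (h : ∀ v, ∃ n, PP up dn n v) :
    ∃ A : Port V → Bool, ∀ i, Acc (fun j i => tau up dn i (A i) = some j) i := by
  let d : V → ℕ := fun v => Nat.find (h v)
  have hd : ∀ v, PP up dn (d v) v := fun v => Nat.find_spec (h v)
  have hmin : ∀ v n, PP up dn n v → d v ≤ n := fun v n hn => Nat.find_min' (h v) hn
  let A : Port V → Bool := fun i => decide (up i.1 = none ∨ ∃ w, up i.1 = some w ∧ d w < d i.1)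
  refine ⟨A, ?_⟩
  have key : ∀ i j, tau up dn i (A i) = some j → d j.1 < d i.1 := by
    intro i j hij
    by_cases hA : up i.1 = none ∨ ∃ w, up i.1 = some w ∧ d w < d i.1
    · have hA' : A i = true := decide_eq_true hA
      rw [hA', tau, if_pos rfl] at hij
      rcases hA with hA | ⟨w, hw, hlt⟩
      · rw [hA] at hij
        exact absurd hij (by simp)
      · rw [hw] at hij
        simp only [Option.map_some, Option.some.injEq] at hij
        rw [← hij]
        exact hlt
    · have hA' : A i = false := decide_eq_false hA
      rw [hA', tau, if_neg (by simp)] at hij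
      push Not at hA
      have h1 := hd i.1
      rcases hm : d i.1 with _ | m
      · rw [hm] at h1
        exact absurd h1 (by simp [PP])
      · rw [hm] at h1
        rcases h1 with h1 | h1 | ⟨w, hw | hw, hp⟩
        · exact absurd h1 hA.1
        · rw [h1] at hij
          exact absurd hij (by simp)
        · have h2 := hA.2 w hw
          have h3 := hmin w m hp
          omega
        · rw [hw] at hij
          simp only [Option.map_some, Option.some.injEq] at hij
          rw [← hij]
          have h3 := hmin w m hp
          show d w < m + 1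
          omega
  have main : ∀ n, ∀ i : Port V, d i.1 = n → Acc (fun j i => tau up dn i (A i) = some j) i := by
    intro n
    induction n using Nat.strong_induction_on with
    | _ n ih =>
      intro i hi
      refine Acc.intro i fun j hj => ?_
      exact ih (d j.1) (by rw [← hi]; exact key i j hj) j rfl
  exact fun i => main _ i rfl

end graph

section hyp

variable {V : Type} [Fintype V] (H : Hyp V)

theorem inv_of_maps {E : Type} [Finite E] (π : Equiv.Perm E) (Y : E → Prop)
    (h : ∀ e, Y e → Y (π e)) (e : E) : Y (π e) ↔ Y e := by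
  refine ⟨fun h1 => ?_, h e⟩
  have hfin : Finite {x // Y x} := inferInstance
  let φ : {x // Y x} → {x // Y x} := fun x => ⟨π x.1, h x.1 x.2⟩
  have hinj : Function.Injective φ := by
    intro x y hxy
    have := congrArg Subtype.val hxy
    exact Subtype.ext (π.injective this)
  obtain ⟨y, hy⟩ := (Finite.surjective_of_injective hinj) ⟨π e, h1⟩
  have h2 : π y.1 = π e := congrArg Subtype.val hy
  rw [← π.injective h2]
  exact y.2

/-- an invariant set without `none` is empty -/
theorem empty_of_inv (Y : Option V → Prop) (h0 : ¬ Y none) (ha : ∀ e, Y (H.α e) ↔ Y e)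
    (hb : ∀ e, Y (H.β e) ↔ Y e) (e : Option V) : ¬ Y e := by
  intro hY
  have := H.conn (fun e => if Y e then 1 else 0) (fun e => by simp only [ha]) (fun e => by
    simp only [hb]) e none
  simp only [if_pos hY, if_neg h0] at this
  exact one_ne_zero this

theorem sum_inv {E : Type} [Fintype E] (π : Equiv.Perm E) (f : E → ℝ)
    (h : ∀ e, f (π e) = f e) (g : E → ℝ) :
    ∑ e, f e * (g (π e) - g e) = 0 := by
  have h1 : ∀ e, f e * (g (π e) - g e) = f (π e) * g (π e) - f e * g e := by
    intro e
    rw [h]
    ring
  rw [Finset.sum_congr rfl fun e _ => h1 e, Finset.sum_sub_distrib,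
    Equiv.sum_comp π (fun e => f e * g e), sub_self]

theorem exists_ind {E : Type} (Y : E → Prop) :
    ∃ f : E → ℝ, (∀ e, Y e → f e = 1) ∧ ∀ e, ¬ Y e → f e = 0 :=
  ⟨fun e => if Y e then 1 else 0, fun _ h => if_pos h, fun _ h => if_neg h⟩

theorem ind_inv {E : Type} (π : Equiv.Perm E) (Y : E → Prop) (h : ∀ e, Y (π e) ↔ Y e) (f : E → ℝ)
    (h1 : ∀ e, Y e → f e = 1) (h0 : ∀ e, ¬ Y e → f e = 0) (e : E) : f (π e) = f e := by
  by_cases hY : Y e
  · rw [h1 e hY, h1 _ ((h e).2 hY)]
  · rw [h0 e hY, h0 _ fun h' => hY ((h e).1 h')]

theorem all_good (κ : Bool) (v : V) : ∃ n, PP H.up (H.dn κ) n v := by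
  by_contra hv
  let Y : Option V → Prop := fun o => ∃ v, o = some v ∧ ¬ ∃ n, PP H.up (H.dn κ) n v
  have hYv : Y (some v) := ⟨v, rfl, hv⟩
  have h0 : ¬ Y none := by
    rintro ⟨v, h, -⟩
    exact absurd h (by simp)
  have hup : ∀ v, Y (some v) → Y (H.up v) := by
    rintro v ⟨v', hv', hn⟩
    obtain rfl := Option.some.inj hv'
    rcases h : H.up v with _ | w
    · exact absurd ⟨1, Or.inl h⟩ hn
    · refine ⟨w, rfl, ?_⟩
      rintro ⟨n, hn'⟩
      exact hn ⟨n + 1, Or.inr (Or.inr ⟨w, Or.inl h, hn'⟩)⟩
  have hdn : ∀ v, Y (some v) → Y (H.dn κ v) := by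
    rintro v ⟨v', hv', hn⟩
    obtain rfl := Option.some.inj hv'
    rcases h : H.dn κ v with _ | w
    · exact absurd ⟨1, Or.inr (Or.inl h)⟩ hn
    · refine ⟨w, rfl, ?_⟩
      rintro ⟨n, hn'⟩
      exact hn ⟨n + 1, Or.inr (Or.inr ⟨w, Or.inr h, hn'⟩)⟩
  have ha : ∀ e, Y (H.α e) ↔ Y e := by
    refine inv_of_maps H.α Y ?_
    rintro (_ | v) he
    · exact absurd he h0
    · exact hup v he
  cases κ with
  | true =>
    have hb' : ∀ e, Y (H.β.symm e) ↔ Y e := by
      refine inv_of_maps H.β.symm Y ?_
      rintro (_ | v) he
      · exact absurd he h0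
      · have := hdn v he
        rw [Hyp.dn, if_pos rfl] at this
        exact this
    have hb : ∀ e, Y (H.β e) ↔ Y e := by
      intro e
      have := hb' (H.β e)
      rw [Equiv.symm_apply_apply] at this
      exact this.symm
    exact empty_of_inv H Y h0 ha hb (some v) hYv
  | false =>
    set ρ := Equiv.removeNone H.β with hρ
    have hr' : ∀ v, Y (some (ρ.symm v)) ↔ Y (some v) := by
      refine inv_of_maps ρ.symm (fun v => Y (some v)) ?_
      intro v he
      have := hdn v he
      rw [Hyp.dn, if_neg (by simp)] at this
      exact this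
    have hr : ∀ v, Y (some (ρ v)) ↔ Y (some v) := by
      intro v
      have := hr' (ρ v)
      rw [Equiv.symm_apply_apply] at this
      exact this.symm
    have hstep : ∀ v, Y (some v) → H.β (some v) ≠ none → Y (H.β (some v)) := by
      intro v he hne
      have h1 := (hr v).2 he
      obtain ⟨w, hw⟩ := Option.ne_none_iff_exists'.1 hne
      have h2 : some (ρ v) = H.β (some v) := Equiv.removeNone_some _ ⟨w, hw⟩
      rwa [h2] at h1
    have hstep0 : ∀ v, Y (some v) → H.β (some v) = none → Y (H.β none) := by
      intro v he hne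
      have h1 := (hr v).2 he
      have h2 : some (ρ v) = H.β none := Equiv.removeNone_none _ hne
      rwa [h2] at h1
    by_cases hbn : Y (H.β none)
    · let Z : Option V → Prop := fun o => Y o ∨ o = none
      have hZ : ∀ e, Z (H.β e) ↔ Z e := by
        refine inv_of_maps H.β Z ?_
        rintro (_ | v) he
        · exact Or.inl hbn
        · have hYe : Y (some v) := he.resolve_right (by simp)
          by_cases h : H.β (some v) = none
          · exact Or.inr h
          · exact Or.inl (hstep v hYe h)
      obtain ⟨g, hg, hg0⟩ := H.cut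
      obtain ⟨y, hy1, hy0⟩ := exists_ind Y
      obtain ⟨z, hz1, hz0⟩ := exists_ind Z
      have s1 := sum_inv H.α y (ind_inv H.α Y ha y hy1 hy0) g
      have s2 := sum_inv H.β z (ind_inv H.β Z hZ z hz1 hz0) g
      have s3 : ∑ e, (z e * (g (H.β e) - g e) - y e * (g (H.α e) - g e)) =
          g (H.α none) - g none := by
        rw [Finset.sum_eq_single none]
        · rw [hz1 none (Or.inr rfl), hy0 none h0, hg]
          ring
        · rintro e - he
          have : z e = y e := by
            by_cases hYe : Y e
            · rw [hy1 e hYe, hz1 e (Or.inl hYe)]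
            · rw [hy0 e hYe, hz0 e fun h => hYe (h.resolve_right he)]
          rw [hg, this, sub_self]
        · intro h
          exact absurd (Finset.mem_univ _) h
      rw [Finset.sum_sub_distrib, s1, s2, sub_self] at s3
      exact hg0 (by linarith)
    · have hb : ∀ e, Y (H.β e) ↔ Y e := by
        refine inv_of_maps H.β Y ?_
        rintro (_ | v) he
        · exact absurd he h0
        · by_cases h : H.β (some v) = none
          · exact absurd (hstep0 v he h) hbn
          · exact hstep v he h
      exact empty_of_inv H Y h0 ha hb (some v) hYv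

end hyp

section mat

variable {V : Type} [Fintype V] [DecidableEq V]

/-- equivalence of ports -/
def pe (V : Type) : Port V ≃ Fin 2 × V :=
  (Equiv.prodComm V Bool).trans (Equiv.prodCongr finTwoEquiv.symm (Equiv.refl V))

/-- row operations -/
noncomputable def TT (x : ℝ) (R b : V → ℝ) : Matrix (Port V) (Port V) ℝ :=
  (Matrix.blockDiagonal fun v => !![1, 0; -x, b v + R v]).submatrix (pe V) (pe V)

theorem det_TT (x : ℝ) (R b : V → ℝ) : (TT x R b).det = ∏ v, (b v + R v) := by
  unfold TT
  rw [Matrix.det_submatrix_equiv_self, Matrix.det_blockDiagonal]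
  refine Finset.prod_congr rfl fun v _ => ?_
  rw [Matrix.det_fin_two]
  simp

theorem TT_mul_false (x : ℝ) (R b : V → ℝ) (P : Matrix (Port V) (Port V) ℝ) (v : V) (j : Port V) :
    (TT x R b * P) (v, false) j = P (v, false) j := by
  rw [Matrix.mul_apply, Fintype.sum_prod_type, Finset.sum_eq_single v]
  · simp [TT, pe, Matrix.blockDiagonal_apply, finTwoEquiv]
  · intro w _ hw
    simp [TT, pe, Matrix.blockDiagonal_apply, hw.symm]
  · simp

theorem TT_mul_true (x : ℝ) (R b : V → ℝ) (P : Matrix (Port V) (Port V) ℝ) (v : V) (j : Port V) :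
    (TT x R b * P) (v, true) j = (b v + R v) * P (v, true) j - x * P (v, false) j := by
  rw [Matrix.mul_apply, Fintype.sum_prod_type, Finset.sum_eq_single v]
  · simp [TT, pe, Matrix.blockDiagonal_apply, finTwoEquiv]
    ring
  · intro w _ hw
    simp [TT, pe, Matrix.blockDiagonal_apply, hw.symm]
  · simp

end mat

theorem portPos : GoalPortPos := by
  intro hM V _ _ H κ x L R b hx hL hpos
  set P := portMat H.up (H.dn κ) x b R with hP
  let w : Port V → Bool → ℝ := fun i c =>
    if i.2 then (if c then L i.1 else x * b i.1) else (if c then b i.1 else R i.1)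
  have hw : ∀ i c, 0 < w i c := by
    intro i c
    obtain ⟨h1, h2, h3⟩ := hpos i.1
    simp only [w]
    split_ifs <;> first | assumption | positivity
  have h := hM w (tau H.up (H.dn κ))
  have hdet : (TT x R b * P).det = ∑ A : Port V → Bool,
      if (∀ i, Acc (fun j i => tau H.up (H.dn κ) i (A i) = some j) i) then ∏ i, w i (A i) else 0 := by
    rw [← h]
    congr 1
    ext ⟨v, c⟩ j
    have hv := hL v
    have e1 : ∀ c, (some (v, c) : Option (Port V)) = some j ↔ j = (v, c) := fun c =>
      ⟨fun h => (Option.some.inj h).symm, fun h => by rw [h]⟩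
    cases c with
    | false =>
      rw [TT_mul_false, Matrix.of_apply, Fintype.sum_bool]
      simp only [hP, portMat, w, tau, Bool.false_eq_true, if_false, if_true, Option.map_some, e1]
      rcases Classical.propComplete (Option.map (fun w => (w, true)) (H.up v) = some j) with h1 | h1 <;>
      rcases Classical.propComplete (Option.map (fun w => (w, false)) (H.dn κ v) = some j)
        with h2 | h2 <;>
      rcases Classical.propComplete (j = (v, false)) with h3 | h3 <;>
      simp only [h1, h2, h3, if_true, if_false] <;> ring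
    | true =>
      rw [TT_mul_true, Matrix.of_apply, Fintype.sum_bool]
      simp only [hP, portMat, w, tau, Bool.false_eq_true, if_false, if_true, Option.map_some, e1]
      rcases Classical.propComplete (Option.map (fun w => (w, true)) (H.up v) = some j) with h1 | h1 <;>
      rcases Classical.propComplete (Option.map (fun w => (w, false)) (H.dn κ v) = some j)
        with h2 | h2 <;>
      rcases Classical.propComplete (j = (v, false)) with h3 | h3 <;>
      rcases Classical.propComplete (j = (v, true)) with h4 | h4 <;>
      simp only [h1, h2, h3, h4, if_true, if_false] <;>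
      first | linear_combination hv | linear_combination -hv | linear_combination (0 : ℝ) * hv
  have hpos2 : 0 < (TT x R b * P).det := by
    rw [hdet]
    obtain ⟨A, hA⟩ := exists_choice H.up (H.dn κ) (all_good H κ)
    refine Finset.sum_pos' (fun A _ => ?_) ⟨A, Finset.mem_univ _, ?_⟩
    · split_ifs
      · exact Finset.prod_nonneg fun i _ => (hw i _).le
      · exact le_refl _
    · rw [if_pos hA]
      exact Finset.prod_pos fun i _ => hw i _
  rw [Matrix.det_mul, det_TT] at hpos2
  have hprod : 0 < ∏ v, (b v + R v) :=
    Finset.prod_pos fun v _ => by have := hpos v; linarith [this.2.1, this.2.2]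
  exact (pos_iff_pos_of_mul_pos hpos2).1 hprod

end Pool.Agent.Helper37.PG
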